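import Mathlib
import Pool.Agent.R945.TP.Q1

/-! Gauss sums and the polynomials of the quadratic residues. -/

set_option autoImplicit false
set_option linter.unusedSectionVars false

namespace Pool.Agent.L0h76.HK

open Finset Pool.Agent.R945.TP Pool.Agent.Helper184.Chapman Polynomial

variable {p : ℕ} [Fact p.Prime]

/-- the Gauss sum -/
noncomputable def gg (p : ℕ) [Fact p.Prime] : ℂ := gaussSum (chi p ℂ) (sc p)

/-- polynomials of residues and nonresidues -/
noncomputable def PR (p : ℕ) [Fact p.Prime] : ℂ[X] := ∏ r ∈ Rs p, (X - C (sc p r))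
noncomputable def PN (p : ℕ) [Fact p.Prime] : ℂ[X] := ∏ r ∈ Ns p, (X - C (sc p r))

lemma sc_pow (k : ZMod p) (n : ℕ) : sc p k ^ n = sc p (k * (n : ZMod p)) := by
  rw [← AddChar.map_nsmul_eq_pow, nsmul_eq_mul, mul_comm]

lemma sc_sum (a : ZMod p) : ∑ k : ZMod p, sc p (k * a) = if a = 0 then (p : ℂ) else 0 := by
  rw [AddChar.sum_mulShift a sc_prim, ZMod.card]
  push_cast
  rfl

lemma sc_zero : sc p 0 = 1 := AddChar.map_zero_eq_one _

lemma poly_sum (F : ℂ[X]) : ∑ k : ZMod p, F.eval (sc p k) =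
    ∑ i ∈ range (F.natDegree + 1), F.coeff i * (if (i : ZMod p) = 0 then (p : ℂ) else 0) := by
  simp_rw [eval_eq_sum_range]
  rw [Finset.sum_comm]
  apply Finset.sum_congr rfl
  intro i _
  rw [← Finset.mul_sum]
  congr 1
  rw [← sc_sum]
  exact Finset.sum_congr rfl (fun k _ => sc_pow k i)

lemma poly_sum_two (F : ℂ[X]) (hF : F.natDegree < 2 * p) :
    ∑ k : ZMod p, F.eval (sc p k) = p * (F.coeff 0 + F.coeff p) := by
  have hp : p.Prime := Fact.out
  rw [poly_sum]
  have h1 : ∑ i ∈ range (F.natDegree + 1), F.coeff i * (if (i : ZMod p) = 0 then (p : ℂ) else 0) =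
      ∑ i ∈ range (2 * p), F.coeff i * (if (i : ZMod p) = 0 then (p : ℂ) else 0) := by
    apply Finset.sum_subset
    · intro i hi
      rw [Finset.mem_range] at hi ⊢
      omega
    · intro i _ hi
      rw [Finset.mem_range, not_lt] at hi
      rw [coeff_eq_zero_of_natDegree_lt (by omega), zero_mul]
  rw [h1]
  have h2 : ∀ i ∈ range (2 * p), F.coeff i * (if (i : ZMod p) = 0 then (p : ℂ) else 0) =
      (if i = 0 then (p : ℂ) * F.coeff 0 else 0) + (if i = p then (p : ℂ) * F.coeff p else 0) := by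
    intro i hi
    rw [Finset.mem_range] at hi
    by_cases h : (i : ZMod p) = 0
    · rw [if_pos h]
      rw [ZMod.natCast_eq_zero_iff] at h
      obtain ⟨k, hk⟩ := h
      have hk2 : k < 2 := by
        by_contra hk2
        push Not at hk2
        have : p * 2 ≤ p * k := Nat.mul_le_mul_left p hk2
        omega
      have hp0 := hp.pos
      interval_cases k
      · rw [if_pos (by omega), if_neg (by omega), hk]; simp; ring
      · rw [if_neg (by omega), if_pos (by omega), hk]; simp; ring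
    · rw [if_neg h, mul_zero, if_neg, if_neg, add_zero]
      · rintro rfl; simp at h
      · rintro rfl; simp at h
  rw [Finset.sum_congr rfl h2, Finset.sum_add_distrib, Finset.sum_ite_eq', Finset.sum_ite_eq',
    if_pos (by rw [Finset.mem_range]; have := hp.pos; omega),
    if_pos (by rw [Finset.mem_range]; have := hp.pos; omega)]
  ring

lemma mem_Rs {k : ZMod p} : k ∈ Rs p ↔ quadraticChar (ZMod p) k = 1 := by simp [Rs]
lemma mem_Ns {k : ZMod p} : k ∈ Ns p ↔ quadraticChar (ZMod p) k = -1 := by simp [Ns]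

lemma chi_Rs {k : ZMod p} (h : k ∈ Rs p) : chi p ℂ k = 1 := by
  rw [chi_apply, mem_Rs.1 h]; simp

lemma chi_Ns {k : ZMod p} (h : k ∈ Ns p) : chi p ℂ k = -1 := by
  rw [chi_apply, mem_Ns.1 h]; simp

lemma ne_Rs {k : ZMod p} (h : k ∈ Rs p) : k ≠ 0 := by
  rintro rfl
  rw [mem_Rs, MulChar.map_zero] at h
  exact zero_ne_one h

lemma ne_Ns {k : ZMod p} (h : k ∈ Ns p) : k ≠ 0 := by
  rintro rfl
  rw [mem_Ns, MulChar.map_zero] at h
  norm_num at h

lemma split_sum {M : Type*} [AddCommMonoid M] (f : ZMod p → M) :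
    ∑ k, f k = f 0 + (∑ k ∈ Rs p, f k + ∑ k ∈ Ns p, f k) := by
  rw [← Finset.add_sum_erase univ f (Finset.mem_univ 0), R945.TP.erase_eq, Finset.sum_union disj]

lemma split_prod {M : Type*} [CommMonoid M] (f : ZMod p → M) :
    ∏ k ∈ univ.erase 0, f k = (∏ k ∈ Rs p, f k) * ∏ k ∈ Ns p, f k := by
  rw [R945.TP.erase_eq, Finset.prod_union disj]

lemma chi_sum (f : ZMod p → ℂ) : ∑ k, chi p ℂ k * f k = ∑ k ∈ Rs p, f k - ∑ k ∈ Ns p, f k := by
  rw [split_sum, chi_apply, MulChar.map_zero]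
  rw [Finset.sum_congr rfl (fun k hk => by rw [chi_Rs hk, one_mul]),
    Finset.sum_congr rfl (g := fun k => - f k) (s₁ := Ns p) (fun k hk => by rw [chi_Ns hk]; ring),
    Finset.sum_neg_distrib]
  simp
  ring

lemma sum_Rs (f : ZMod p → ℂ) : 2 * ∑ k ∈ Rs p, f k = ∑ k, f k - f 0 + ∑ k, chi p ℂ k * f k := by
  rw [chi_sum, split_sum]; ring

lemma sum_Ns (f : ZMod p → ℂ) : 2 * ∑ k ∈ Ns p, f k = ∑ k, f k - f 0 - ∑ k, chi p ℂ k * f k := by
  rw [chi_sum, split_sum]; ring

section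
variable (m : ℕ) (hm : p = 2 * m + 1)
include hm

lemma hp2 : p ≠ 2 := by omega

lemma card_Rs : (Rs p).card = m := by
  have h1 := sum_Rs (p := p) (fun _ => 1)
  have h2 : ∑ k : ZMod p, chi p ℂ k * 1 = 0 := by
    simp only [mul_one]
    exact MulChar.sum_eq_zero_of_ne_one (chi_ne (hp2 m hm) two_ne_zero)
  rw [h2] at h1
  simp only [Finset.sum_const, Finset.card_univ, ZMod.card, nsmul_eq_mul, mul_one] at h1
  have h3 : 2 * (Rs p).card + 1 = p := by
    have : ((2 * (Rs p).card + 1 : ℕ) : ℂ) = ((p : ℕ) : ℂ) := by push_cast; linear_combination h1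
    exact_mod_cast this
  omega

lemma card_Ns : (Ns p).card = m := by
  have h1 := sum_Ns (p := p) (fun _ => 1)
  have h2 : ∑ k : ZMod p, chi p ℂ k * 1 = 0 := by
    simp only [mul_one]
    exact MulChar.sum_eq_zero_of_ne_one (chi_ne (hp2 m hm) two_ne_zero)
  rw [h2] at h1
  simp only [Finset.sum_const, Finset.card_univ, ZMod.card, nsmul_eq_mul, mul_one] at h1
  have h3 : 2 * (Ns p).card + 1 = p := by
    have : ((2 * (Ns p).card + 1 : ℕ) : ℂ) = ((p : ℕ) : ℂ) := by push_cast; linear_combination h1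
    exact_mod_cast this
  omega

lemma gg_shift (a : ZMod p) : ∑ k : ZMod p, chi p ℂ k * sc p (k * a) = chi p ℂ a * gg p := by
  rw [gg, ← gshift (hp2 m hm) two_ne_zero]
  exact Finset.sum_congr rfl (fun k _ => by rw [mul_comm a k])

/-- the trace of `ζ^a` over the residues -/
lemma hR (a : ZMod p) : 2 * ∑ r ∈ Rs p, sc p (r * a) = (if a = 0 then (p : ℂ) else 0) - 1 + chi p ℂ a * gg p := by
  rw [sum_Rs, sc_sum, gg_shift m hm, zero_mul, sc_zero]

lemma hN (a : ZMod p) : 2 * ∑ r ∈ Ns p, sc p (r * a) = (if a = 0 then (p : ℂ) else 0) - 1 - chi p ℂ a * gg p := by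
  rw [sum_Ns, sc_sum, gg_shift m hm, zero_mul, sc_zero]

lemma SN : ∑ r ∈ Ns p, sc p r = -(1 + gg p) / 2 := by
  have h := hN m hm (1 : ZMod p)
  rw [if_neg one_ne_zero] at h
  simp only [mul_one, map_one, one_mul] at h
  linear_combination h / 2

lemma PN_monic : (PN p).Monic := monic_prod_X_sub_C _ _

omit hm in
lemma PR_eval (z : ℂ) : (PR p).eval z = ∏ r ∈ Rs p, (z - sc p r) := by
  rw [PR, eval_prod]; simp

omit hm in
lemma PN_eval (z : ℂ) : (PN p).eval z = ∏ r ∈ Ns p, (z - sc p r) := by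
  rw [PN, eval_prod]; simp

lemma PN_deg : (PN p).natDegree = m := by
  rw [PN, natDegree_finsetProd_X_sub_C_eq_card, card_Ns m hm]

lemma PN2_deg : ((PN p) ^ 2).natDegree = 2 * m := by
  rw [(PN_monic m hm).natDegree_pow, PN_deg m hm]

lemma PN2_top : ((PN p) ^ 2).coeff (2 * m) = 1 := by
  have h := ((PN_monic m hm).pow 2).coeff_natDegree
  rwa [PN2_deg m hm] at h

lemma PN2_large (n : ℕ) (hn : 2 * m < n) : ((PN p) ^ 2).coeff n = 0 :=
  coeff_eq_zero_of_natDegree_lt (by rw [PN2_deg m hm]; exact hn)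

lemma PN2_next (hm0 : 0 < m) : ((PN p) ^ 2).coeff (2 * m - 1) = 1 + gg p := by
  have h : ((PN p) ^ 2).nextCoeff = 1 + gg p := by
    rw [sq, (PN_monic m hm).nextCoeff_mul (PN_monic m hm), PN, prod_X_sub_C_nextCoeff, SN m hm]
    ring
  rw [← h, nextCoeff_of_natDegree_pos (by rw [PN2_deg m hm]; omega), PN2_deg m hm]

omit hm in
lemma PN_root {n : ZMod p} (hn : n ∈ Ns p) : (PN p).eval (sc p n) = 0 := by
  rw [PN_eval]
  exact Finset.prod_eq_zero hn (sub_self _)

omit hm in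
/-- sums over residues of polynomial values -/
lemma res_sum (F : ℂ[X]) : ∑ r ∈ Rs p, (F * PN p).eval (sc p r) =
    ∑ k : ZMod p, (F * PN p).eval (sc p k) - (F * PN p).eval 1 := by
  rw [split_sum (fun k => (F * PN p).eval (sc p k)), sc_zero]
  rw [Finset.sum_eq_zero (s := Ns p) (fun n hn => by rw [eval_mul, PN_root hn, mul_zero])]
  ring

lemma prod_one_sub : ∏ k ∈ univ.erase (0 : ZMod p), (1 - sc p k) = (p : ℂ) := by
  have h4 : ∏ k ∈ univ.erase (0 : ZMod p), (1 - sc p k) =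
      ∏ i ∈ Finset.range (p - 1), (1 - (sc p 1) ^ (i + 1)) := by
    symm
    apply Finset.prod_bij (fun (i : ℕ) _ => ((i + 1 : ℕ) : ZMod p))
    · intro i hi
      rw [Finset.mem_range] at hi
      simp only [Finset.mem_erase, Finset.mem_univ, and_true]
      intro h
      rw [ZMod.natCast_eq_zero_iff] at h
      have := Nat.le_of_dvd (by omega) h
      omega
    · intro a ha b hb hab
      rw [Finset.mem_range] at ha hb
      have := congrArg ZMod.val hab
      rw [ZMod.val_natCast_of_lt (by omega), ZMod.val_natCast_of_lt (by omega)] at this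
      omega
    · intro b hb
      simp only [Finset.mem_erase, Finset.mem_univ, and_true] at hb
      have h5 : b.val ≠ 0 := by rwa [Ne, ZMod.val_eq_zero]
      have h6 := ZMod.val_lt b
      refine ⟨b.val - 1, ?_, ?_⟩
      · rw [Finset.mem_range]; omega
      · rw [show b.val - 1 + 1 = b.val by omega, ZMod.natCast_zmod_val]
    · intro i _
      rw [← AddChar.map_nsmul_eq_pow, nsmul_eq_mul, mul_one]
  rw [h4]
  have hprim : IsPrimitiveRoot (sc p 1) p := by
    rw [IsPrimitiveRoot.iff_def]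
    constructor
    · rw [← AddChar.map_nsmul_eq_pow, nsmul_eq_mul, ZMod.natCast_self, zero_mul,
        AddChar.map_zero_eq_one]
    · intro l hl
      rw [← AddChar.map_nsmul_eq_pow, nsmul_eq_mul, mul_one] at hl
      have := ((sc_prim (p := p)).zmod_char_eq_one_iff p _).mp hl
      rwa [ZMod.natCast_eq_zero_iff] at this
  have h5 := IsPrimitiveRoot.prod_one_sub_pow_eq_order (R := ℂ) (n := 2 * m) (μ := sc p 1)
    (by rw [← hm]; exact hprim)
  rw [show p - 1 = 2 * m by omega, h5, hm]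
  push_cast
  ring

/-- the value `P(1) Q(1) = p` -/
lemma PQ_one : (PR p).eval 1 * (PN p).eval 1 = p := by
  rw [PR_eval, PN_eval, ← split_prod (fun k => 1 - sc p k), prod_one_sub m hm]

omit hm in
/-- multiplication by a residue permutes residues and nonresidues -/
lemma mul_mem {u k : ZMod p} (hu : quadraticChar (ZMod p) u = 1) (c : ℤ) :
    quadraticChar (ZMod p) (u * k) = c ↔ quadraticChar (ZMod p) k = c := by
  rw [map_mul, hu, one_mul]

omit hm in
lemma sum_Rs_mul {M : Type*} [AddCommMonoid M] (f : ZMod p → M) {u : ZMod p} (hu : u ∈ Rs p) :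
    ∑ k ∈ Rs p, f (k * u) = ∑ k ∈ Rs p, f k := by
  have hu0 := ne_Rs hu
  apply Finset.sum_bij (fun k _ => k * u)
  · intro k hk
    rw [mem_Rs] at hk ⊢
    rw [map_mul, hk, mem_Rs.1 hu]; norm_num
  · intro k _ l _ h; exact mul_right_cancel₀ hu0 h
  · intro k hk
    refine ⟨k * u⁻¹, ?_, by rw [mul_assoc, inv_mul_cancel₀ hu0, mul_one]⟩
    rw [mem_Rs] at hk ⊢
    have h1 : quadraticChar (ZMod p) (k * u⁻¹ * u) = quadraticChar (ZMod p) (k * u⁻¹) * quadraticChar (ZMod p) u :=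
      map_mul _ _ _
    rw [mul_assoc, inv_mul_cancel₀ hu0, mul_one, hk, mem_Rs.1 hu, mul_one] at h1
    exact h1.symm
  · intro k _; rfl

omit hm in
lemma prod_Rs_mul_R {M : Type*} [CommMonoid M] (f : ZMod p → M) {u : ZMod p} (hu : u ∈ Rs p) :
    ∏ k ∈ Rs p, f (k * u) = ∏ k ∈ Rs p, f k :=
  congrArg Additive.toMul (sum_Rs_mul (M := Additive M) (fun k => Additive.ofMul (f k)) hu)

omit hm in
lemma sum_Ns_mul {M : Type*} [AddCommMonoid M] (f : ZMod p → M) {u : ZMod p} (hu : u ∈ Rs p) :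
    ∑ k ∈ Ns p, f (k * u) = ∑ k ∈ Ns p, f k := by
  have hu0 := ne_Rs hu
  apply Finset.sum_bij (fun k _ => k * u)
  · intro k hk
    rw [mem_Ns] at hk ⊢
    rw [map_mul, hk, mem_Rs.1 hu]; norm_num
  · intro k _ l _ h; exact mul_right_cancel₀ hu0 h
  · intro k hk
    refine ⟨k * u⁻¹, ?_, by rw [mul_assoc, inv_mul_cancel₀ hu0, mul_one]⟩
    rw [mem_Ns] at hk ⊢
    have h1 : quadraticChar (ZMod p) (k * u⁻¹ * u) = quadraticChar (ZMod p) (k * u⁻¹) * quadraticChar (ZMod p) u :=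
      map_mul _ _ _
    rw [mul_assoc, inv_mul_cancel₀ hu0, mul_one, hk, mem_Rs.1 hu, mul_one] at h1
    exact h1.symm
  · intro k _; rfl

omit hm in
/-- multiplication by a nonresidue maps residues to nonresidues -/
lemma prod_Rs_mul_N {M : Type*} [CommMonoid M] (f : ZMod p → M) {u : ZMod p} (hu : u ∈ Ns p) :
    ∏ k ∈ Rs p, f (k * u) = ∏ k ∈ Ns p, f k := by
  have hu0 := ne_Ns hu
  apply Finset.prod_bij (fun k _ => k * u)
  · intro k hk
    rw [mem_Rs] at hk
    rw [mem_Ns]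
    rw [map_mul, hk, mem_Ns.1 hu]; norm_num
  · intro k _ l _ h; exact mul_right_cancel₀ hu0 h
  · intro k hk
    refine ⟨k * u⁻¹, ?_, by rw [mul_assoc, inv_mul_cancel₀ hu0, mul_one]⟩
    rw [mem_Ns] at hk
    rw [mem_Rs]
    have h1 : quadraticChar (ZMod p) (k * u⁻¹ * u) = quadraticChar (ZMod p) (k * u⁻¹) * quadraticChar (ZMod p) u :=
      map_mul _ _ _
    rw [mul_assoc, inv_mul_cancel₀ hu0, mul_one, hk, mem_Ns.1 hu] at h1
    linarith
  · intro k _; rfl

lemma four_mem (h3 : 3 < p) : (4 : ZMod p) ∈ Rs p ∧ (4 : ZMod p) - 1 ≠ 0 := by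
  constructor
  · rw [mem_Rs]
    have h2 : (2 : ZMod p) ≠ 0 := two_ne' (hp2 m hm)
    have : (4 : ZMod p) = 2 ^ 2 := by norm_num
    rw [this, map_pow]
    exact quadraticChar_sq_one h2
  · intro h
    have h4 : ((3 : ℕ) : ZMod p) = 0 := by
      have : ((3 : ℕ) : ZMod p) = 4 - 1 := by push_cast; norm_num
      rw [this, h]
    rw [ZMod.natCast_eq_zero_iff] at h4
    have := Nat.le_of_dvd (by norm_num) h4
    omega

lemma Rs_sum (h3 : 3 < p) : ∑ k ∈ Rs p, k = 0 := by
  obtain ⟨h4, h5⟩ := four_mem m hm h3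
  have h := sum_Rs_mul (fun k => k) h4
  simp only [← Finset.sum_mul] at h
  have : (∑ k ∈ Rs p, k) * (4 - 1) = 0 := by linear_combination h
  exact (mul_eq_zero.1 this).resolve_right h5

lemma Ns_sum (h3 : 3 < p) : ∑ k ∈ Ns p, k = 0 := by
  obtain ⟨h4, h5⟩ := four_mem m hm h3
  have h := sum_Ns_mul (fun k => k) h4
  simp only [← Finset.sum_mul] at h
  have : (∑ k ∈ Ns p, k) * (4 - 1) = 0 := by linear_combination h
  exact (mul_eq_zero.1 this).resolve_right h5

omit hm in
lemma sc_map_sum (s : Finset (ZMod p)) : sc p (∑ k ∈ s, k) = ∏ k ∈ s, sc p k := by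
  classical
  induction s using Finset.induction_on with
  | empty => simp [sc_zero]
  | insert a s ha ih => rw [Finset.sum_insert ha, Finset.prod_insert ha, AddChar.map_add_eq_mul, ih]

lemma prod_sc_Rs (h3 : 3 < p) : ∏ k ∈ Rs p, sc p k = 1 := by
  rw [← sc_map_sum, Rs_sum m hm h3, sc_zero]

lemma prod_sc_Ns (h3 : 3 < p) : ∏ k ∈ Ns p, sc p k = 1 := by
  rw [← sc_map_sum, Ns_sum m hm h3, sc_zero]

lemma PR_zero (h3 : 3 < p) : (PR p).eval 0 = (-1) ^ m := by
  rw [PR_eval, Finset.prod_congr rfl (fun k _ => zero_sub (sc p k)), Finset.prod_neg,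
    card_Rs m hm, prod_sc_Rs m hm h3, mul_one]

lemma PN_zero (h3 : 3 < p) : (PN p).eval 0 = (-1) ^ m := by
  rw [PN_eval, Finset.prod_congr rfl (fun k _ => zero_sub (sc p k)), Finset.prod_neg,
    card_Ns m hm, prod_sc_Ns m hm h3, mul_one]

end

end Pool.Agent.L0h76.HK
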