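import Mathlib
import Pool.Agent.L0h76.HK.A

/-! The vectors `V⁻¹ 1`, `V⁻¹ e₀` and their Gram matrix. -/

set_option autoImplicit false
set_option linter.unusedSectionVars false

namespace Pool.Agent.L0h76.HK

open Finset Pool.Agent.R945.TP Pool.Agent.Helper184.Chapman Polynomial

variable {p : ℕ} [Fact p.Prime]

noncomputable def ss (p : ℕ) [Fact p.Prime] (r : ZMod p) : ℂ :=
  - (PR p).eval 1 / p * (sc p r * (PN p).eval (sc p r))

noncomputable def tt (p : ℕ) [Fact p.Prime] (r : ZMod p) : ℂ :=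
  (PR p).eval 0 / p * ((1 - sc p r) * (PN p).eval (sc p r))

section
variable (m : ℕ) (hm : p = 2 * m + 1)
include hm

omit hm in
lemma pne : (p : ℂ) ≠ 0 := by exact_mod_cast (Fact.out : p.Prime).ne_zero

/-- `V s = 1` -/
lemma s_pow (j : ℕ) (hj : j < m) : ∑ r ∈ Rs p, sc p r ^ j * ss p r = 1 := by
  have h1 : ∑ r ∈ Rs p, sc p r ^ j * ss p r =
      - (PR p).eval 1 / p * ∑ r ∈ Rs p, (X ^ (j + 1) * PN p).eval (sc p r) := by
    rw [Finset.mul_sum]
    apply Finset.sum_congr rfl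
    intro r _
    rw [ss, eval_mul, eval_pow, eval_X]
    ring
  have hd : (X ^ (j + 1) * PN p).natDegree = j + 1 + m := by
    rw [(monic_X_pow (j + 1)).natDegree_mul (PN_monic m hm), natDegree_X_pow, PN_deg m hm]
  rw [h1, res_sum, poly_sum_two _ (by rw [hd]; omega)]
  have c0 : (X ^ (j + 1) * PN p).coeff 0 = 0 := by
    rw [coeff_X_pow_mul', if_neg (by omega)]
  have cp : (X ^ (j + 1) * PN p).coeff p = 0 :=
    coeff_eq_zero_of_natDegree_lt (by rw [hd]; omega)
  rw [c0, cp, eval_mul, eval_pow, eval_X, one_pow, one_mul]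
  have h := PQ_one m hm
  have hp := pne (p := p)
  field_simp
  linear_combination h

lemma t_pow (h3 : 3 < p) (j : ℕ) (hj : j < m) : ∑ r ∈ Rs p, sc p r ^ j * tt p r = if j = 0 then 1 else 0 := by
  have h1 : ∑ r ∈ Rs p, sc p r ^ j * tt p r =
      (PR p).eval 0 / p * ∑ r ∈ Rs p, ((X ^ j * (1 - X)) * PN p).eval (sc p r) := by
    rw [Finset.mul_sum]
    apply Finset.sum_congr rfl
    intro r _
    rw [tt, eval_mul, eval_mul, eval_pow, eval_X, eval_sub, eval_one, eval_X]
    ring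
  have hd : ((X ^ j * (1 - X)) * PN p).natDegree ≤ j + 1 + m := by
    refine natDegree_mul_le.trans ?_
    rw [PN_deg m hm]
    have : (X ^ j * (1 - X) : ℂ[X]).natDegree ≤ j + 1 := by
      refine natDegree_mul_le.trans ?_
      rw [natDegree_X_pow]
      have : (1 - X : ℂ[X]).natDegree ≤ 1 := by
        refine (natDegree_sub_le _ _).trans ?_
        simp
      omega
    omega
  rw [h1, res_sum, poly_sum_two _ (by omega)]
  have c0 : ((X ^ j * (1 - X)) * PN p).coeff 0 = if j = 0 then (PN p).eval 0 else 0 := by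
    rw [coeff_zero_eq_eval_zero, eval_mul, eval_mul, eval_pow, eval_X, eval_sub, eval_one, eval_X,
      sub_zero, mul_one]
    by_cases h : j = 0
    · subst h; simp
    · rw [if_neg h, zero_pow h, zero_mul]
  have cp : ((X ^ j * (1 - X)) * PN p).coeff p = 0 :=
    coeff_eq_zero_of_natDegree_lt (by omega)
  have e1 : ((X ^ j * (1 - X)) * PN p).eval 1 = 0 := by
    rw [eval_mul, eval_mul, eval_sub, eval_one, eval_X, sub_self, mul_zero, zero_mul]
  rw [c0, cp, e1, PN_zero m hm h3, PR_zero m hm h3, add_zero, sub_zero]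
  have hp := pne (p := p)
  have hs : ((-1 : ℂ) ^ m) * (-1) ^ m = 1 := by rw [← mul_pow]; simp
  by_cases h : j = 0
  · rw [if_pos h, if_pos h]
    field_simp
    linear_combination hs
  · rw [if_neg h, if_neg h]; ring

lemma gram_ss (hm0 : 0 < m) : ∑ r ∈ Rs p, ss p r * ss p r = (PR p).eval 1 ^ 2 * (1 + gg p) / p - 1 := by
  have h1 : ∑ r ∈ Rs p, ss p r * ss p r =
      ((PR p).eval 1 / p) ^ 2 * ∑ r ∈ Rs p, ((X ^ 2 * PN p) * PN p).eval (sc p r) := by
    rw [Finset.mul_sum]
    apply Finset.sum_congr rfl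
    intro r _
    rw [ss, eval_mul, eval_mul, eval_pow, eval_X]
    ring
  have he : (X ^ 2 * PN p) * PN p = X ^ 2 * (PN p) ^ 2 := by ring
  have hd : ((X ^ 2 * PN p) * PN p).natDegree = 2 + 2 * m := by
    rw [he, (monic_X_pow 2).natDegree_mul ((PN_monic m hm).pow 2), natDegree_X_pow, PN2_deg m hm]
  rw [h1, res_sum, poly_sum_two _ (by rw [hd]; omega)]
  have c0 : ((X ^ 2 * PN p) * PN p).coeff 0 = 0 := by
    rw [he, coeff_X_pow_mul', if_neg (by omega)]
  have cp : ((X ^ 2 * PN p) * PN p).coeff p = 1 + gg p := by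
    rw [he, coeff_X_pow_mul', if_pos (by omega), ← PN2_next m hm hm0]
    congr 1
    omega
  rw [c0, cp, eval_mul, eval_mul, eval_pow, eval_X, one_pow, one_mul]
  have h := PQ_one m hm
  have hp := pne (p := p)
  field_simp
  linear_combination (-((PR p).eval 1 * (PN p).eval 1) - p) * h

lemma gram_st (h3 : 3 < p) (hm0 : 0 < m) :
    ∑ r ∈ Rs p, ss p r * tt p r = (-1) ^ m * (PR p).eval 1 * gg p / p := by
  have h1 : ∑ r ∈ Rs p, ss p r * tt p r =
      (- (PR p).eval 1 / p * ((PR p).eval 0 / p)) * ∑ r ∈ Rs p, (((X - X ^ 2) * PN p) * PN p).eval (sc p r) := by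
    rw [Finset.mul_sum]
    apply Finset.sum_congr rfl
    intro r _
    rw [ss, tt, eval_mul, eval_mul, eval_sub, eval_pow, eval_X]
    ring
  have he : ((X - X ^ 2) * PN p) * PN p = X ^ 1 * (PN p) ^ 2 - X ^ 2 * (PN p) ^ 2 := by ring
  have hd : (((X - X ^ 2) * PN p) * PN p).natDegree ≤ 2 + 2 * m := by
    rw [he]
    refine (natDegree_sub_le _ _).trans ?_
    rw [(monic_X_pow 2).natDegree_mul ((PN_monic m hm).pow 2), natDegree_X_pow, PN2_deg m hm,
      (monic_X_pow 1).natDegree_mul ((PN_monic m hm).pow 2), natDegree_X_pow, PN2_deg m hm]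
    omega
  rw [h1, res_sum, poly_sum_two _ (by omega)]
  have c0 : (((X - X ^ 2) * PN p) * PN p).coeff 0 = 0 := by
    rw [he, coeff_sub, coeff_X_pow_mul', if_neg (by omega), coeff_X_pow_mul', if_neg (by omega), sub_zero]
  have cp : (((X - X ^ 2) * PN p) * PN p).coeff p = - gg p := by
    rw [he, coeff_sub, coeff_X_pow_mul', if_pos (by omega), coeff_X_pow_mul', if_pos (by omega)]
    rw [show p - 1 = 2 * m by omega, show p - 2 = 2 * m - 1 by omega, PN2_top m hm, PN2_next m hm hm0]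
    ring
  have e1 : (((X - X ^ 2) * PN p) * PN p).eval 1 = 0 := by
    rw [eval_mul, eval_mul, eval_sub, eval_X, eval_pow, eval_X, one_pow, sub_self, zero_mul, zero_mul]
  rw [c0, cp, e1, PR_zero m hm h3]
  have hp := pne (p := p)
  field_simp
  ring

lemma gram_tt (h3 : 3 < p) (hm0 : 0 < m) : ∑ r ∈ Rs p, tt p r * tt p r = gg p / p := by
  have h1 : ∑ r ∈ Rs p, tt p r * tt p r =
      ((PR p).eval 0 / p) ^ 2 * ∑ r ∈ Rs p, (((1 - X) ^ 2 * PN p) * PN p).eval (sc p r) := by
    rw [Finset.mul_sum]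
    apply Finset.sum_congr rfl
    intro r _
    rw [tt, eval_mul, eval_mul, eval_pow, eval_sub, eval_one, eval_X]
    ring
  have he : ((1 - X) ^ 2 * PN p) * PN p = (PN p) ^ 2 - C 2 * (X ^ 1 * (PN p) ^ 2) + X ^ 2 * (PN p) ^ 2 := by
    rw [show (C 2 : ℂ[X]) = 2 by rfl]
    ring
  have hd : (((1 - X) ^ 2 * PN p) * PN p).natDegree ≤ 2 + 2 * m := by
    have : (((1 - X) ^ 2 * PN p) * PN p : ℂ[X]) = ((1 - X) * (1 - X)) * (PN p ^ 2) := by ring
    rw [this]
    refine natDegree_mul_le.trans ?_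
    rw [PN2_deg m hm]
    have h4 : (1 - X : ℂ[X]).natDegree ≤ 1 := by
      refine (natDegree_sub_le _ _).trans ?_
      simp
    have : ((1 - X) * (1 - X) : ℂ[X]).natDegree ≤ 2 := by
      refine natDegree_mul_le.trans ?_
      omega
    omega
  rw [h1, res_sum, poly_sum_two _ (by omega)]
  have c0 : (((1 - X) ^ 2 * PN p) * PN p).coeff 0 = 1 := by
    rw [coeff_zero_eq_eval_zero, eval_mul, eval_mul, eval_pow, eval_sub, eval_one, eval_X, PN_zero m hm h3]
    have hs : ((-1 : ℂ) ^ m) * (-1) ^ m = 1 := by rw [← mul_pow]; simp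
    linear_combination hs
  have cp : (((1 - X) ^ 2 * PN p) * PN p).coeff p = gg p - 1 := by
    rw [he, coeff_add, coeff_sub, coeff_C_mul, coeff_X_pow_mul', if_pos (by omega), coeff_X_pow_mul', if_pos (by omega)]
    rw [show p - 1 = 2 * m by omega, show p - 2 = 2 * m - 1 by omega, PN2_top m hm, PN2_next m hm hm0,
      PN2_large m hm p (by omega)]
    ring
  have e1 : (((1 - X) ^ 2 * PN p) * PN p).eval 1 = 0 := by
    rw [eval_mul, eval_mul, eval_pow, eval_sub, eval_one, eval_X, sub_self]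
    simp
  rw [c0, cp, e1, PR_zero m hm h3]
  have hp := pne (p := p)
  have hs : ((-1 : ℂ) ^ m) * (-1) ^ m = 1 := by rw [← mul_pow]; simp
  field_simp
  linear_combination (p * gg p) * hs

end

end Pool.Agent.L0h76.HK
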