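import Mathlib
import Pool.Agent.L0h76.HK.B

/-! The square of the Vandermonde determinant of the residues. -/

set_option autoImplicit false
set_option linter.unusedSectionVars false

namespace Pool.Agent.L0h76.HK

open Finset Pool.Agent.R945.TP Pool.Agent.Helper184.Chapman Polynomial

lemma vand_sq (n : ℕ) (v : Fin n → ℂ) : (Matrix.vandermonde v).det ^ 2 =
    (-1) ^ (n * (n - 1) / 2) * ∏ i, ∏ j ∈ univ.erase i, (v i - v j) := by
  set D := (Matrix.vandermonde v).det with hD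
  rw [Matrix.det_vandermonde] at hD
  have h1 : ∀ i : Fin n, ∏ j ∈ univ.erase i, (v i - v j) =
      (∏ j ∈ Iio i, (v i - v j)) * ∏ j ∈ Ioi i, (v i - v j) := by
    intro i
    rw [← Finset.prod_union]
    · apply Finset.prod_congr _ (fun _ _ => rfl)
      ext j
      simp only [Finset.mem_erase, Finset.mem_univ, and_true, Finset.mem_union, Finset.mem_Iio, Finset.mem_Ioi]
      exact lt_or_lt_iff_ne.symm
    · rw [Finset.disjoint_left]
      intro j hj hj'
      rw [Finset.mem_Iio] at hj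
      rw [Finset.mem_Ioi] at hj'
      exact lt_asymm hj hj'
  have h2 : ∏ i : Fin n, ∏ j ∈ Iio i, (v i - v j) = D := by
    rw [hD]
    apply Finset.prod_comm'
    intro x y
    simp
  have h3 : ∏ i : Fin n, ∏ j ∈ Ioi i, (v i - v j) = (-1) ^ (n * (n - 1) / 2) * D := by
    have : ∀ i : Fin n, ∏ j ∈ Ioi i, (v i - v j) = (-1) ^ (n - 1 - i.val) * ∏ j ∈ Ioi i, (v j - v i) := by
      intro i
      rw [Finset.prod_congr rfl (fun j _ => (neg_sub (v j) (v i)).symm), Finset.prod_neg, Fin.card_Ioi]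
    rw [Finset.prod_congr rfl (fun i _ => this i), Finset.prod_mul_distrib, ← hD, Finset.prod_pow_eq_pow_sum]
    congr 2
    rw [Fin.sum_univ_eq_sum_range (fun i => n - 1 - i), Finset.sum_range_reflect (fun i => i) n, Finset.sum_range_id]
  rw [Finset.prod_congr rfl (fun i _ => h1 i), Finset.prod_mul_distrib, h2, h3]
  have hs : ((-1 : ℂ) ^ (n * (n - 1) / 2)) * (-1) ^ (n * (n - 1) / 2) = 1 := by rw [← mul_pow]; simp
  linear_combination (-D ^ 2) * hs

variable {p : ℕ} [Fact p.Prime]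

section
variable (m : ℕ) (hm : p = 2 * m + 1)
include hm

omit hm in
lemma one_mem : (1 : ZMod p) ∈ Rs p := by rw [mem_Rs, map_one]

lemma disc_prod (h3 : 3 < p) : ∏ r ∈ Rs p, ∏ r' ∈ (Rs p).erase r, (sc p r - sc p r') =
    ∏ u ∈ (Rs p).erase 1, (if quadraticChar (ZMod p) (u - 1) = 1 then (PR p).eval 1 else (PN p).eval 1) := by
  have h1 : ∀ r ∈ Rs p, ∏ r' ∈ (Rs p).erase r, (sc p r - sc p r') =
      ∏ u ∈ (Rs p).erase 1, (sc p r - sc p (r * u)) := by
    intro r hr
    have hr0 := ne_Rs hr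
    symm
    apply Finset.prod_bij (fun u _ => r * u)
    · intro u hu
      rw [Finset.mem_erase, mem_Rs] at hu ⊢
      refine ⟨?_, by rw [map_mul, hu.2, mem_Rs.1 hr]; norm_num⟩
      intro h
      apply hu.1
      apply mul_left_cancel₀ hr0
      rw [h, mul_one]
    · intro a _ b _ h; exact mul_left_cancel₀ hr0 h
    · intro b hb
      rw [Finset.mem_erase, mem_Rs] at hb
      refine ⟨r⁻¹ * b, ?_, by rw [← mul_assoc, mul_inv_cancel₀ hr0, one_mul]⟩
      rw [Finset.mem_erase, mem_Rs]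
      constructor
      · intro h
        apply hb.1
        rw [← one_mul b, ← mul_inv_cancel₀ hr0, mul_assoc, h, mul_one]
      · have h1 : quadraticChar (ZMod p) (r * (r⁻¹ * b)) = quadraticChar (ZMod p) r * quadraticChar (ZMod p) (r⁻¹ * b) :=
          map_mul _ _ _
        rw [← mul_assoc, mul_inv_cancel₀ hr0, one_mul, hb.2, mem_Rs.1 hr, one_mul] at h1
        exact h1.symm
    · intro _ _; rfl
  rw [Finset.prod_congr rfl h1, Finset.prod_comm]
  apply Finset.prod_congr rfl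
  intro u hu
  rw [Finset.mem_erase] at hu
  have h2 : ∀ r ∈ Rs p, sc p r - sc p (r * u) = sc p r * (1 - sc p (r * (u - 1))) := by
    intro r _
    rw [mul_sub, mul_one, ← AddChar.map_add_eq_mul]
    congr 2
    ring
  rw [Finset.prod_congr rfl h2, Finset.prod_mul_distrib, prod_sc_Rs m hm h3, one_mul]
  have hu1 : u - 1 ≠ 0 := sub_ne_zero.2 hu.1
  rcases quadraticChar_dichotomy hu1 with h | h
  · rw [if_pos h, prod_Rs_mul_R (fun k => 1 - sc p k) (mem_Rs.2 h), PR_eval]
  · rw [if_neg (by rw [h]; norm_num), prod_Rs_mul_N (fun k => 1 - sc p k) (mem_Ns.2 h), PN_eval]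

/-- the number of residues `u ≠ 1` with `u - 1` a residue -/
noncomputable def k1 (p : ℕ) [Fact p.Prime] : ℕ :=
  (((Rs p).erase 1).filter (fun u => quadraticChar (ZMod p) (u - 1) = 1)).card
noncomputable def k2 (p : ℕ) [Fact p.Prime] : ℕ :=
  (((Rs p).erase 1).filter (fun u => ¬ quadraticChar (ZMod p) (u - 1) = 1)).card

lemma k_add : k1 p + k2 p + 1 = m := by
  have h := Finset.card_filter_add_card_filter_not (s := (Rs p).erase 1)
    (fun u => quadraticChar (ZMod p) (u - 1) = 1)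
  rw [Finset.card_erase_of_mem one_mem, card_Rs m hm] at h
  have h1 : 0 < m := by
    rw [← card_Rs m hm]
    exact Finset.card_pos.2 ⟨1, one_mem⟩
  rw [k1, k2, h]
  omega

lemma k_sub : 2 * ((k1 p : ℂ) - k2 p) = - chi p ℂ (-1) - 1 := by
  have h1 := sum_Rs (p := p) (fun u => chi p ℂ (u - 1))
  have h2 : ∑ k : ZMod p, chi p ℂ (k - 1) = 0 := by
    have h3 : ∑ k : ZMod p, chi p ℂ k = 0 := MulChar.sum_eq_zero_of_ne_one (chi_ne (hp2 m hm) two_ne_zero)
    rw [← h3]
    exact (Equiv.subRight (1 : ZMod p)).sum_comp (fun k => chi p ℂ k)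
  have h3 : ∑ k : ZMod p, chi p ℂ k * chi p ℂ (k - 1) = -1 := by
    have h4 := Pool.Agent.R945.LD.q_corr (hp2 m hm) (-1)
    rw [if_neg (by simp)] at h4
    have h5 := congrArg (Int.cast : ℤ → ℂ) h4
    push_cast at h5
    rw [← h5]
    apply Finset.sum_congr rfl
    intro k _
    rw [← sub_eq_add_neg]
    rfl
  rw [h2, h3, zero_sub] at h1
  have h4 : ∑ u ∈ Rs p, chi p ℂ (u - 1) = (k1 p : ℂ) - k2 p := by
    rw [← Finset.add_sum_erase (Rs p) _ one_mem, sub_self, chi_apply, MulChar.map_zero, Int.cast_zero, zero_add]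
    have h5 : ∀ u ∈ (Rs p).erase 1, chi p ℂ (u - 1) = if quadraticChar (ZMod p) (u - 1) = 1 then (1 : ℂ) else -1 := by
      intro u hu
      rw [Finset.mem_erase] at hu
      have hu1 : u - 1 ≠ 0 := sub_ne_zero.2 hu.1
      rcases quadraticChar_dichotomy hu1 with h | h
      · rw [if_pos h, chi_apply, h]; simp
      · rw [if_neg (by rw [h]; norm_num), chi_apply, h]; simp
    rw [Finset.sum_congr rfl h5, Finset.sum_ite]
    simp only [Finset.sum_const, nsmul_eq_mul, mul_one, mul_neg]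
    rw [k1, k2]
    ring
  rw [← h4, h1, zero_sub]
  ring

lemma disc_eq (h3 : 3 < p) : ∏ r ∈ Rs p, ∏ r' ∈ (Rs p).erase r, (sc p r - sc p r') =
    (PR p).eval 1 ^ k1 p * (PN p).eval 1 ^ k2 p := by
  rw [disc_prod m hm h3, Finset.prod_ite, Finset.prod_const, Finset.prod_const, k1, k2]

/-- the equivalence -/
noncomputable def ee : Fin m ≃ {r // r ∈ Rs p} := (Finset.equivFinOfCardEq (card_Rs m hm)).symm

/-- the nodes -/
noncomputable def vv : Fin m → ℂ := fun i => sc p (ee m hm i : ZMod p)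

lemma sum_ee (f : ZMod p → ℂ) : ∑ i : Fin m, f (ee m hm i) = ∑ r ∈ Rs p, f r := by
  rw [(ee m hm).sum_comp (fun r : {r // r ∈ Rs p} => f r), Finset.sum_coe_sort (Rs p) f]

lemma prod_ee (f : ZMod p → ℂ) : ∏ i : Fin m, f (ee m hm i) = ∏ r ∈ Rs p, f r := by
  rw [(ee m hm).prod_comp (fun r : {r // r ∈ Rs p} => f r), Finset.prod_coe_sort (Rs p) f]

lemma disc_vv : ∏ i, ∏ j ∈ univ.erase i, (vv m hm i - vv m hm j) =
    ∏ r ∈ Rs p, ∏ r' ∈ (Rs p).erase r, (sc p r - sc p r') := by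
  rw [← prod_ee m hm (fun r => ∏ r' ∈ (Rs p).erase r, (sc p r - sc p r'))]
  apply Finset.prod_congr rfl
  intro i _
  apply Finset.prod_bij (fun j _ => (ee m hm j : ZMod p))
  · intro j hj
    rw [Finset.mem_erase] at hj ⊢
    refine ⟨?_, (ee m hm j).2⟩
    intro h
    exact hj.1 ((ee m hm).injective (Subtype.ext h))
  · intro a _ b _ h
    exact (ee m hm).injective (Subtype.ext h)
  · intro b hb
    rw [Finset.mem_erase] at hb
    refine ⟨(ee m hm).symm ⟨b, hb.2⟩, ?_, by simp⟩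
    rw [Finset.mem_erase]
    refine ⟨?_, Finset.mem_univ _⟩
    intro h
    apply hb.1
    rw [← h]
    simp
  · intro _ _; rfl

theorem vand_vv (h3 : 3 < p) : (Matrix.vandermonde (vv m hm)).det ^ 2 =
    (-1) ^ (m * (m - 1) / 2) * ((PR p).eval 1 ^ k1 p * (PN p).eval 1 ^ k2 p) := by
  rw [vand_sq, disc_vv, disc_eq m hm h3]

end

end Pool.Agent.L0h76.HK
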