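import Mathlib
import Pool.Agent.L0h76.HK.C

/-! The factorisation of the four-parameter matrix. -/

set_option autoImplicit false
set_option linter.unusedSectionVars false

namespace Pool.Agent.L0h76.HK

open Finset Matrix Pool.Agent.R945.TP Pool.Agent.Helper184.Chapman

/-- low rank update -/
lemma det_update (m : ℕ) (c : ℂ) (hc : c ≠ 0) (W : Matrix (Fin m) (Fin m) ℂ)
    (U : Matrix (Fin m) (Fin 3) ℂ) (B : Matrix (Fin 3) (Fin 3) ℂ) :
    (c • (Wᵀ * W) + (Wᵀ * U) * B * (Wᵀ * U)ᵀ).det =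
      W.det ^ 2 * c ^ m * (1 + c⁻¹ • (B * (Uᵀ * U))).det := by
  have h1 : c • (Wᵀ * W) + (Wᵀ * U) * B * (Wᵀ * U)ᵀ =
      Wᵀ * (c • (1 + (c⁻¹ • U) * (B * Uᵀ))) * W := by
    rw [Matrix.transpose_mul, Matrix.transpose_transpose, smul_add, Matrix.mul_add, Matrix.add_mul,
      Matrix.smul_mul, smul_smul, mul_inv_cancel₀ hc, one_smul]
    congr 1
    · rw [Matrix.mul_smul, Matrix.mul_one, Matrix.smul_mul]
    · simp only [Matrix.mul_assoc]
  rw [h1, Matrix.det_mul, Matrix.det_mul, Matrix.det_transpose, Matrix.det_smul, Fintype.card_fin,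
    Matrix.det_one_add_mul_comm]
  have h2 : B * Uᵀ * c⁻¹ • U = c⁻¹ • (B * (Uᵀ * U)) := by
    rw [Matrix.mul_smul, Matrix.mul_assoc]
  rw [h2]
  ring

variable {p : ℕ} [Fact p.Prime]

section
variable (m : ℕ) (hm : p = 2 * m + 1)
include hm

/-- the vectors as columns: `V⁻¹ 1`, `V⁻¹ e₀` and `V⁻¹ χ` -/
noncomputable def UU : Matrix (Fin m) (Fin 3) ℂ := Matrix.of fun i a =>
  ![ss p (ee m hm i : ZMod p), tt p (ee m hm i : ZMod p),
    2 / gg p + 1 / gg p * ss p (ee m hm i : ZMod p) - p / gg p * tt p (ee m hm i : ZMod p)] a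

/-- the coefficients -/
noncomputable def BB (g P x y z w : ℂ) : Matrix (Fin 3) (Fin 3) ℂ :=
  !![x + 1 / g, 0, z; 0, -(P / g), 0; y, 0, w]

lemma gg_sq : gg p ^ 2 = et p ℂ * p := gsq (hp2 m hm) two_ne_zero _ sc_prim

lemma gg_ne : gg p ≠ 0 := by
  intro h
  have h2 := gg_sq m hm
  rw [h] at h2
  have h3 := et_sq (p := p) (K := ℂ)
  have h4 : et p ℂ ≠ 0 := by intro h5; rw [h5] at h3; simp at h3
  have := mul_ne_zero h4 (pne (p := p))
  apply this
  rw [← h2]; ring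

omit hm in
/-- sums of powers: the trace of `ζ^{j}` over residues -/
lemma W_row (m : ℕ) (hm : p = 2 * m + 1) (f : ZMod p → ℂ) (j : Fin m) :
    ((Matrix.vandermonde (vv m hm))ᵀ.mulVec (fun i => f (ee m hm i))) j = ∑ r ∈ Rs p, sc p r ^ (j : ℕ) * f r := by
  rw [← sum_ee m hm (fun r => sc p r ^ (j : ℕ) * f r)]
  simp [Matrix.mulVec, dotProduct, Matrix.vandermonde_apply, vv]

lemma cast_zero_iff (j : ℕ) (hj : j < p) : ((j : ZMod p) = 0) ↔ j = 0 := by
  rw [ZMod.natCast_eq_zero_iff]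
  constructor
  · intro h; exact Nat.eq_zero_of_dvd_of_lt h hj
  · rintro rfl; simp

lemma WU (h3 : 3 < p) : (Matrix.vandermonde (vv m hm))ᵀ * UU m hm =
    Matrix.of fun (j : Fin m) a => ![1, if (j : ℕ) = 0 then 1 else 0, chi p ℂ ((j : ℕ) : ZMod p)] a := by
  have hg := gg_ne m hm
  ext j a
  have hj := j.2
  have hs := s_pow m hm j hj
  have ht := t_pow m hm h3 j hj
  have hc : ∑ r ∈ Rs p, sc p r ^ (j : ℕ) * (2 / gg p + 1 / gg p * ss p r - p / gg p * tt p r) =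
      chi p ℂ ((j : ℕ) : ZMod p) := by
    have e : ∑ r ∈ Rs p, sc p r ^ (j : ℕ) * (2 / gg p + 1 / gg p * ss p r - p / gg p * tt p r) =
        1 / gg p * (2 * ∑ r ∈ Rs p, sc p (r * ((j : ℕ) : ZMod p))) + 1 / gg p * ∑ r ∈ Rs p, sc p r ^ (j : ℕ) * ss p r
        - p / gg p * ∑ r ∈ Rs p, sc p r ^ (j : ℕ) * tt p r := by
      simp only [Finset.mul_sum]
      rw [← Finset.sum_add_distrib, ← Finset.sum_sub_distrib]
      apply Finset.sum_congr rfl
      intro r _
      rw [← sc_pow]; ring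
    rw [e, hs, ht, hR m hm]
    by_cases h : (j : ℕ) = 0
    · rw [if_pos h, if_pos ((cast_zero_iff m hm _ (by omega)).2 h)]
      field_simp
      ring
    · rw [if_neg h, if_neg (fun h' => h ((cast_zero_iff m hm _ (by omega)).1 h'))]
      field_simp
      ring
  have key : ∀ f : ZMod p → ℂ, ∑ i, (Matrix.vandermonde (vv m hm))ᵀ j i * f (ee m hm i) =
      ∑ r ∈ Rs p, sc p r ^ (j : ℕ) * f r := fun f => W_row m hm f j
  rw [Matrix.mul_apply]
  fin_cases a
  · simp only [UU, Matrix.of_apply]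
    exact (key (ss p)).trans hs
  · simp only [UU, Matrix.of_apply]
    exact (key (tt p)).trans ht
  · simp only [UU, Matrix.of_apply]
    exact (key (fun r => 2 / gg p + 1 / gg p * ss p r - p / gg p * tt p r)).trans hc

lemma WW (j k : Fin m) : ((Matrix.vandermonde (vv m hm))ᵀ * Matrix.vandermonde (vv m hm)) j k =
    ((if (j : ℕ) = 0 ∧ (k : ℕ) = 0 then (p : ℂ) else 0) - 1 +
      chi p ℂ (((j : ℕ) : ZMod p) + ((k : ℕ) : ZMod p)) * gg p) / 2 := by
  have key : ((Matrix.vandermonde (vv m hm))ᵀ * Matrix.vandermonde (vv m hm)) j k =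
      ∑ r ∈ Rs p, sc p (r * ((((j : ℕ) + (k : ℕ) : ℕ)) : ZMod p)) := by
    rw [Matrix.mul_apply, ← sum_ee m hm (fun r => sc p (r * ((((j : ℕ) + (k : ℕ) : ℕ)) : ZMod p)))]
    apply Finset.sum_congr rfl
    intro i _
    rw [← sc_pow, pow_add]
    simp [Matrix.vandermonde_apply, vv]
  have h := hR m hm ((((j : ℕ) + (k : ℕ) : ℕ)) : ZMod p)
  rw [key]
  have h2 : ((((j : ℕ) + (k : ℕ) : ℕ)) : ZMod p) = 0 ↔ (j : ℕ) = 0 ∧ (k : ℕ) = 0 := by
    rw [cast_zero_iff m hm _ (by have := j.2; have := k.2; omega)]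
    omega
  by_cases h4 : (j : ℕ) = 0 ∧ (k : ℕ) = 0
  · rw [if_pos (h2.2 h4)] at h
    rw [if_pos h4]
    push_cast at h ⊢
    linear_combination h / 2
  · rw [if_neg (fun h5 => h4 (h2.1 h5))] at h
    rw [if_neg h4]
    push_cast at h ⊢
    linear_combination h / 2

theorem fact (h3 : 3 < p) (x y z w : ℂ) :
    (Matrix.of fun i j : Fin m => chi p ℂ (((i : ℕ) : ZMod p) + ((j : ℕ) : ZMod p)) + x + chi p ℂ ((i : ℕ) : ZMod p) * y
      + chi p ℂ ((j : ℕ) : ZMod p) * z + chi p ℂ ((i : ℕ) : ZMod p) * chi p ℂ ((j : ℕ) : ZMod p) * w) =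
    (2 / gg p) • ((Matrix.vandermonde (vv m hm))ᵀ * Matrix.vandermonde (vv m hm)) +
      ((Matrix.vandermonde (vv m hm))ᵀ * UU m hm) * BB (gg p) p x y z w * ((Matrix.vandermonde (vv m hm))ᵀ * UU m hm)ᵀ := by
  have hg := gg_ne m hm
  rw [WU m hm h3]
  ext j k
  rw [Matrix.add_apply, Matrix.smul_apply, WW m hm, Matrix.mul_apply, Fin.sum_univ_three]
  simp only [Matrix.mul_apply, Fin.sum_univ_three, Matrix.transpose_apply, Matrix.of_apply, BB,
    Matrix.cons_val_zero, Matrix.cons_val_one, Matrix.cons_val, smul_eq_mul]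
  by_cases hj : (j : ℕ) = 0
  · by_cases hk : (k : ℕ) = 0
    · rw [if_pos ⟨hj, hk⟩, if_pos hj, if_pos hk]
      field_simp
      ring
    · rw [if_neg (fun h => hk h.2), if_pos hj, if_neg hk]
      field_simp
      ring
  · rw [if_neg (fun h => hj h.1), if_neg hj]
    field_simp
    ring

/-- the Gram matrix -/
noncomputable def GG (g P M s1 s2 s3 : ℂ) : Matrix (Fin 3) (Fin 3) ℂ :=
  !![s1, s2, 2 / g + 1 / g * s1 - P / g * s2;
     s2, s3, 2 / g + 1 / g * s2 - P / g * s3;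
     2 / g + 1 / g * s1 - P / g * s2, 2 / g + 1 / g * s2 - P / g * s3,
     4 / g ^ 2 * M + 1 / g ^ 2 * s1 + P ^ 2 / g ^ 2 * s3 + 4 / g ^ 2 - 4 * P / g ^ 2 - 2 * P / g ^ 2 * s2]

lemma gram (h3 : 3 < p) (hm0 : 0 < m) : (UU m hm)ᵀ * UU m hm =
    GG (gg p) p m ((PR p).eval 1 ^ 2 * (1 + gg p) / p - 1) ((-1) ^ m * (PR p).eval 1 * gg p / p) (gg p / p) := by
  have hg := gg_ne m hm
  have h1 : ∑ r ∈ Rs p, ss p r = 1 := by
    have := s_pow m hm 0 hm0
    simpa using this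
  have h2 : ∑ r ∈ Rs p, tt p r = 1 := by
    have := t_pow m hm h3 0 hm0
    simpa using this
  have h0 : ∑ r ∈ Rs p, (1 : ℂ) = m := by
    rw [Finset.sum_const, card_Rs m hm]; simp
  have g11 := gram_ss m hm hm0
  have g12 := gram_st m hm h3 hm0
  have g22 := gram_tt m hm h3 hm0
  set s1 := (PR p).eval 1 ^ 2 * (1 + gg p) / p - 1
  set s2 := (-1) ^ m * (PR p).eval 1 * gg p / p
  set s3 := gg p / p
  have g13 : ∑ r ∈ Rs p, ss p r * (2 / gg p + 1 / gg p * ss p r - p / gg p * tt p r) =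
      2 / gg p + 1 / gg p * s1 - p / gg p * s2 := by
    have e : ∑ r ∈ Rs p, ss p r * (2 / gg p + 1 / gg p * ss p r - p / gg p * tt p r) =
        2 / gg p * ∑ r ∈ Rs p, ss p r + 1 / gg p * ∑ r ∈ Rs p, ss p r * ss p r
          - p / gg p * ∑ r ∈ Rs p, ss p r * tt p r := by
      simp only [Finset.mul_sum]
      rw [← Finset.sum_add_distrib, ← Finset.sum_sub_distrib]
      apply Finset.sum_congr rfl
      intro r _
      ring
    rw [e, h1, g11, g12, mul_one]
  have g23 : ∑ r ∈ Rs p, tt p r * (2 / gg p + 1 / gg p * ss p r - p / gg p * tt p r) =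
      2 / gg p + 1 / gg p * s2 - p / gg p * s3 := by
    have e : ∑ r ∈ Rs p, tt p r * (2 / gg p + 1 / gg p * ss p r - p / gg p * tt p r) =
        2 / gg p * ∑ r ∈ Rs p, tt p r + 1 / gg p * ∑ r ∈ Rs p, ss p r * tt p r
          - p / gg p * ∑ r ∈ Rs p, tt p r * tt p r := by
      simp only [Finset.mul_sum]
      rw [← Finset.sum_add_distrib, ← Finset.sum_sub_distrib]
      apply Finset.sum_congr rfl
      intro r _
      ring
    rw [e, h2, g12, g22, mul_one]
  have g33 : ∑ r ∈ Rs p, (2 / gg p + 1 / gg p * ss p r - p / gg p * tt p r) * (2 / gg p + 1 / gg p * ss p r - p / gg p * tt p r) =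
      4 / gg p ^ 2 * m + 1 / gg p ^ 2 * s1 + p ^ 2 / gg p ^ 2 * s3 + 4 / gg p ^ 2 - 4 * p / gg p ^ 2 - 2 * p / gg p ^ 2 * s2 := by
    have e : ∑ r ∈ Rs p, (2 / gg p + 1 / gg p * ss p r - p / gg p * tt p r) * (2 / gg p + 1 / gg p * ss p r - p / gg p * tt p r) =
        4 / gg p ^ 2 * ∑ r ∈ Rs p, (1 : ℂ) + 1 / gg p ^ 2 * ∑ r ∈ Rs p, ss p r * ss p r
          + p ^ 2 / gg p ^ 2 * ∑ r ∈ Rs p, tt p r * tt p r + 4 / gg p ^ 2 * ∑ r ∈ Rs p, ss p r
          - 4 * p / gg p ^ 2 * ∑ r ∈ Rs p, tt p r - 2 * p / gg p ^ 2 * ∑ r ∈ Rs p, ss p r * tt p r := by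
      simp only [Finset.mul_sum]
      rw [← Finset.sum_add_distrib, ← Finset.sum_add_distrib, ← Finset.sum_add_distrib,
        ← Finset.sum_sub_distrib, ← Finset.sum_sub_distrib]
      apply Finset.sum_congr rfl
      intro r _
      field_simp
      ring
    rw [e, h0, h1, h2, g11, g12, g22, mul_one, mul_one]
  have key : ∀ f h : ZMod p → ℂ, ∑ i, f (ee m hm i) * h (ee m hm i) = ∑ r ∈ Rs p, f r * h r :=
    fun f h => sum_ee m hm (fun r => f r * h r)
  have g21 : ∑ r ∈ Rs p, tt p r * ss p r = s2 := by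
    rw [← g12]; exact Finset.sum_congr rfl (fun r _ => mul_comm _ _)
  have g31 : ∑ r ∈ Rs p, (2 / gg p + 1 / gg p * ss p r - p / gg p * tt p r) * ss p r =
      2 / gg p + 1 / gg p * s1 - p / gg p * s2 := by
    rw [← g13]; exact Finset.sum_congr rfl (fun r _ => mul_comm _ _)
  have g32 : ∑ r ∈ Rs p, (2 / gg p + 1 / gg p * ss p r - p / gg p * tt p r) * tt p r =
      2 / gg p + 1 / gg p * s2 - p / gg p * s3 := by
    rw [← g23]; exact Finset.sum_congr rfl (fun r _ => mul_comm _ _)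
  ext a b
  rw [Matrix.mul_apply]
  simp only [Matrix.transpose_apply, UU, Matrix.of_apply]
  fin_cases a <;> fin_cases b
  · exact (key (ss p) (ss p)).trans g11
  · exact (key (ss p) (tt p)).trans g12
  · exact (key (ss p) (fun r => 2 / gg p + 1 / gg p * ss p r - p / gg p * tt p r)).trans g13
  · exact (key (tt p) (ss p)).trans g21
  · exact (key (tt p) (tt p)).trans g22
  · exact (key (tt p) (fun r => 2 / gg p + 1 / gg p * ss p r - p / gg p * tt p r)).trans g23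
  · exact (key (fun r => 2 / gg p + 1 / gg p * ss p r - p / gg p * tt p r) (ss p)).trans g31
  · exact (key (fun r => 2 / gg p + 1 / gg p * ss p r - p / gg p * tt p r) (tt p)).trans g32
  · exact (key (fun r => 2 / gg p + 1 / gg p * ss p r - p / gg p * tt p r)
      (fun r => 2 / gg p + 1 / gg p * ss p r - p / gg p * tt p r)).trans g33

end

/-- the small determinant, `p ≡ 1 (mod 4)` -/
lemma alg1 (g E x y z w : ℂ) (hg : g ≠ 0) (hE : E ≠ 0) :
    (1 + (2 / g)⁻¹ • (BB g (g ^ 2) x y z w *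
      GG g (g ^ 2) ((g ^ 2 - 1) / 2) ((1 + g) / E ^ 2 - 1) (1 / E) (1 / g))).det =
    g / (2 * E) * ((g ^ 2 * ((E + 1 / E) / (2 * g)) - 2 * ((E - 1 / E) / 2)) * x +
      ((E - 1 / E) / 2 - 2 * ((E + 1 / E) / (2 * g))) * (w * x - (y + 1) * (z + 1))) := by
  rw [Matrix.det_fin_three]
  simp only [BB, GG, Matrix.add_apply, Matrix.smul_apply, Matrix.mul_apply, Fin.sum_univ_three,
    Matrix.of_apply, Matrix.cons_val_zero, Matrix.cons_val_one, Matrix.cons_val, smul_eq_mul,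
    Matrix.one_apply_eq, ne_eq, Fin.isValue, Matrix.one_apply, Fin.reduceEq, if_true, if_false]
  field_simp
  ring

/-- the small determinant, `p ≡ 3 (mod 4)` -/
lemma alg3 (g k x y z w : ℂ) (hg : g ≠ 0) (hk : k = 1 ∨ k = -1) :
    (1 + (2 / g)⁻¹ • (BB g (-g ^ 2) x y z w *
      GG g (-g ^ 2) ((-g ^ 2 - 1) / 2) (-2 - g) k (-1 / g))).det =
    g / 2 * ((w * x - (y + 1) * (z + 1)) - 2 * x) := by
  rw [Matrix.det_fin_three]
  rcases hk with rfl | rfl
  · simp only [BB, GG, Matrix.add_apply, Matrix.smul_apply, Matrix.mul_apply, Fin.sum_univ_three,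
      Matrix.of_apply, Matrix.cons_val_zero, Matrix.cons_val_one, Matrix.cons_val, smul_eq_mul,
      Matrix.one_apply_eq, ne_eq, Fin.isValue, Matrix.one_apply, Fin.reduceEq, if_true, if_false]
    field_simp
    ring
  · simp only [BB, GG, Matrix.add_apply, Matrix.smul_apply, Matrix.mul_apply, Fin.sum_univ_three,
      Matrix.of_apply, Matrix.cons_val_zero, Matrix.cons_val_one, Matrix.cons_val, smul_eq_mul,
      Matrix.one_apply_eq, ne_eq, Fin.isValue, Matrix.one_apply, Fin.reduceEq, if_true, if_false]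
    field_simp
    ring

end Pool.Agent.L0h76.HK
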