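import Mathlib
import Pool.Agent.L0h76.HK.D

/-! Final evaluation. -/

set_option autoImplicit false
set_option linter.unusedSectionVars false

namespace Pool.Agent.L0h76.HK

open Finset Matrix Pool.Agent.R945.TP Pool.Agent.Helper184.Chapman NumberField Module

variable {p : ℕ} [Fact p.Prime]

section
variable (m : ℕ) (hm : p = 2 * m + 1)
include hm

/-- the four-parameter matrix -/
noncomputable def MM (p : ℕ) [Fact p.Prime] (m : ℕ) (x y z w : ℂ) : Matrix (Fin m) (Fin m) ℂ :=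
  Matrix.of fun i j : Fin m => chi p ℂ (((i : ℕ) : ZMod p) + ((j : ℕ) : ZMod p)) + x + chi p ℂ ((i : ℕ) : ZMod p) * y
      + chi p ℂ ((j : ℕ) : ZMod p) * z + chi p ℂ ((i : ℕ) : ZMod p) * chi p ℂ ((j : ℕ) : ZMod p) * w

theorem det_gen (h3 : 3 < p) (hm0 : 0 < m) (x y z w : ℂ) :
    (MM p m x y z w).det =
    ((-1) ^ (m * (m - 1) / 2) * ((PR p).eval 1 ^ k1 p * (PN p).eval 1 ^ k2 p)) * (2 / gg p) ^ m *
      (1 + (2 / gg p)⁻¹ • (BB (gg p) p x y z w *
        GG (gg p) p m ((PR p).eval 1 ^ 2 * (1 + gg p) / p - 1) ((-1) ^ m * (PR p).eval 1 * gg p / p) (gg p / p))).det := by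
  rw [MM, fact m hm h3, det_update m (2 / gg p) (div_ne_zero two_ne_zero (gg_ne m hm)), vand_vv m hm h3,
    gram m hm h3 hm0]

lemma PR_three (h3 : 3 < p) (h4 : p % 4 = 3) : (PR p).eval 1 = - (PN p).eval 1 := by
  have hneg : (-1 : ZMod p) ∈ Ns p := by
    rw [mem_Ns]
    exact Pool.Agent.R945.LD.q_neg_one_of_three h4
  have h1 := prod_Rs_mul_N (fun k => 1 - sc p k) hneg
  rw [PN_eval, ← h1, PR_eval]
  have h2 : ∀ r ∈ Rs p, (1 - sc p r) = (- sc p r) * (1 - sc p (r * -1)) := by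
    intro r _
    have h5 : sc p r * sc p (r * -1) = 1 := by
      rw [← AddChar.map_add_eq_mul]
      have : r + r * -1 = 0 := by ring
      rw [this, sc_zero]
    linear_combination -h5
  rw [Finset.prod_congr rfl h2, Finset.prod_mul_distrib, Finset.prod_neg, prod_sc_Rs m hm h3,
    card_Rs m hm]
  have : (-1 : ℂ) ^ m = -1 := by
    apply Odd.neg_one_pow
    rw [Nat.odd_iff]; omega
  rw [this]
  ring

theorem three (h3 : 3 < p) (h4 : p % 4 = 3) (x y z w : ℂ) :
    (MM p m x y z w).det = 2 ^ (m - 1) * ((w * x - (y + 1) * (z + 1)) - 2 * x) := by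
  have hm0 : 0 < m := by omega
  have hg := gg_ne m hm
  have hetm : et p ℂ = -1 := by
    have h := Pool.Agent.R945.LD.q_neg_one_of_three h4
    rw [et, chi_apply, show quadraticChar (ZMod p) (-1) = -1 from h]; simp
  have hg2 : (p : ℂ) = - gg p ^ 2 := by rw [gg_sq m hm, hetm]; ring
  have hPQ := PQ_one m hm
  have hPm := PR_three m hm h3 h4
  have hP2 : (PR p).eval 1 ^ 2 = gg p ^ 2 := by
    have : (PN p).eval 1 = - (PR p).eval 1 := by rw [hPm]; ring
    rw [this, hg2] at hPQ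
    linear_combination -hPQ
  obtain ⟨κ, hκ, hPκ⟩ : ∃ κ : ℂ, (κ = 1 ∨ κ = -1) ∧ (PR p).eval 1 = κ * gg p := by
    rcases sq_eq_sq_iff_eq_or_eq_neg.mp hP2 with h | h
    · exact ⟨1, Or.inl rfl, by rw [h]; ring⟩
    · exact ⟨-1, Or.inr rfl, by rw [h]; ring⟩
  have hκ2 : κ ^ 2 = 1 := by rcases hκ with rfl | rfl <;> norm_num
  have hk1 := k_add m hm
  have hk2 : k1 p = k2 p := by
    have h := k_sub m hm
    rw [show chi p ℂ (-1) = -1 from hetm] at h
    have : (k1 p : ℂ) = k2 p := by linear_combination h / 2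
    exact_mod_cast this
  have hm1 : (-1 : ℂ) ^ m = -1 := by
    apply Odd.neg_one_pow
    rw [Nat.odd_iff]; omega
  have hmc : (m : ℂ) = (- gg p ^ 2 - 1) / 2 := by
    rw [← hg2]
    have := congrArg (Nat.cast : ℕ → ℂ) hm
    push_cast at this
    rw [this]; ring
  rw [det_gen m hm h3 hm0]
  have e1 : (PR p).eval 1 ^ 2 * (1 + gg p) / p - 1 = -2 - gg p := by
    rw [hPκ, hg2]
    field_simp
    rw [hκ2]; ring
  have e2 : (-1 : ℂ) ^ m * (PR p).eval 1 * gg p / p = κ := by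
    rw [hPκ, hg2, hm1]
    field_simp
  have e3 : gg p / p = -1 / gg p := by
    rw [hg2]; field_simp
  rw [e1, e2, e3, hmc, hg2, alg3 (gg p) κ x y z w hg hκ]
  have e4 : (PR p).eval 1 ^ k1 p * (PN p).eval 1 ^ k2 p = (- gg p ^ 2) ^ k1 p := by
    rw [← hk2, ← mul_pow, hPQ, hg2]
  rw [e4]
  set k := k1 p with hk
  have hmk : m = 2 * k + 1 := by omega
  have e5 : (-1 : ℂ) ^ (m * (m - 1) / 2) = (-1) ^ k := by
    have : m * (m - 1) / 2 = k + 2 * (k * k) := by
      rw [hmk, show 2 * k + 1 - 1 = 2 * k by omega, show (2 * k + 1) * (2 * k) = (k + 2 * (k * k)) * 2 by ring,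
        Nat.mul_div_cancel _ (by norm_num)]
    rw [this, pow_add, pow_mul]
    simp
  rw [e5, show m - 1 = 2 * k by omega, hmk, neg_pow (gg p ^ 2) k]
  have hs : ((-1 : ℂ) ^ k) * (-1) ^ k = 1 := by rw [← mul_pow]; simp
  rw [div_pow]
  have hgk : gg p ^ (2 * k + 1) = (gg p ^ 2) ^ k * gg p := by rw [pow_succ, pow_mul]
  rw [hgk]
  have hne : (gg p ^ 2) ^ k ≠ 0 := pow_ne_zero _ (pow_ne_zero _ hg)
  rw [pow_succ (2 : ℂ) (2 * k)]
  field_simp
  linear_combination ((w * x - (y + 1) * (z + 1)) - 2 * x) * hs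

lemma PR_one (h4 : p % 4 = 1) (H : ℝ)
    (hR : ∏ j ∈ Rs p, ‖1 - sc p j‖ = Real.sqrt p * H⁻¹) :
    (PR p).eval 1 = ((Real.sqrt p * H⁻¹ : ℝ) : ℂ) := by
  classical
  have h1 := prod_norm m hm (fun k => if k ∈ Rs p then 1 - sc p k else 1) (by
    intro k
    have h2 : (-k ∈ Rs p) ↔ (k ∈ Rs p) := by
      rw [mem_Rs, mem_Rs]
      have : quadraticChar (ZMod p) (-k) = quadraticChar (ZMod p) (-1) * quadraticChar (ZMod p) k := by
        rw [← map_mul]; simp
      rw [this, show quadraticChar (ZMod p) (-1) = 1 from Pool.Agent.R945.LD.q_neg_one_of_one h4, one_mul]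
    by_cases h : k ∈ Rs p
    · rw [if_pos h, if_pos (h2.2 h), sc_conj]; simp
    · rw [if_neg h, if_neg (fun h' => h (h2.1 h'))]; simp)
  rw [split_prod, split_prod] at h1
  have hnot : ∀ k ∈ Ns p, k ∉ Rs p := by
    intro k hk hk'
    exact Finset.disjoint_left.1 disj hk' hk
  rw [Finset.prod_congr rfl (fun k hk => if_pos hk),
    Finset.prod_congr rfl (s₁ := Ns p) (fun k hk => if_neg (hnot k hk))] at h1
  rw [Finset.prod_congr rfl (s₁ := Rs p) (g := fun k => ‖1 - sc p k‖) (fun k hk => by rw [if_pos hk]),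
    Finset.prod_congr rfl (s₁ := Ns p) (g := fun _ => (1 : ℝ)) (fun k hk => by rw [if_neg (hnot k hk)]; simp)] at h1
  simp only [Finset.prod_const_one, mul_one] at h1
  rw [PR_eval, h1, hR]

theorem one (h3 : 3 < p) (h4 : p % 4 = 1) (E : ℂ) (hE : E ≠ 0) (a b : ℂ) (hP : (PR p).eval 1 = gg p * E⁻¹)
    (hab : E = a + b * gg p) (hab' : E⁻¹ = b * gg p - a) (x y z w : ℂ) :
    (MM p m x y z w).det = chi p ℂ 2 * 2 ^ (m - 1) *
      ((p * b - 2 * a) * x + (a - 2 * b) * (w * x - (y + 1) * (z + 1))) := by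
  have hm0 : 0 < m := by omega
  have hg := gg_ne m hm
  have hetm : et p ℂ = 1 := et_one h4
  have hg2 : (p : ℂ) = gg p ^ 2 := by rw [gg_sq m hm, hetm]; ring
  have hPQ := PQ_one m hm
  have hQ : (PN p).eval 1 = gg p * E := by
    rw [hP, hg2] at hPQ
    field_simp at hPQ
    linear_combination hPQ
  have hk1 := k_add m hm
  have hk2 : k2 p = k1 p + 1 := by
    have h := k_sub m hm
    rw [show chi p ℂ (-1) = 1 from hetm] at h
    have : (k2 p : ℂ) = (k1 p + 1 : ℕ) := by push_cast; linear_combination -h / 2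
    exact_mod_cast this
  have hm1 : (-1 : ℂ) ^ m = 1 := by
    apply Even.neg_one_pow
    rw [Nat.even_iff]; omega
  have hmc : (m : ℂ) = (gg p ^ 2 - 1) / 2 := by
    rw [← hg2]
    have := congrArg (Nat.cast : ℕ → ℂ) hm
    push_cast at this
    rw [this]; ring
  rw [det_gen m hm h3 hm0]
  have e1 : (PR p).eval 1 ^ 2 * (1 + gg p) / p - 1 = (1 + gg p) / E ^ 2 - 1 := by
    rw [hP, hg2]
    field_simp
  have e2 : (-1 : ℂ) ^ m * (PR p).eval 1 * gg p / p = 1 / E := by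
    rw [hP, hg2, hm1]
    field_simp
  have e3 : gg p / p = 1 / gg p := by
    rw [hg2]; field_simp
  have ea : (E - 1 / E) / 2 = a := by
    rw [one_div, hab', hab]; ring
  have eb : (E + 1 / E) / (2 * gg p) = b := by
    rw [one_div, hab', hab]; field_simp; ring
  rw [e1, e2, e3, hmc, hg2, alg1 (gg p) E x y z w hg hE, ea, eb]
  have e4 : (PR p).eval 1 ^ k1 p * (PN p).eval 1 ^ k2 p = (gg p ^ 2) ^ k1 p * (gg p * E) := by
    rw [hk2, pow_succ, ← mul_assoc, ← mul_pow, hPQ, hg2, hQ]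
  rw [e4]
  set k := k1 p with hk
  have hmk : m = 2 * k + 2 := by omega
  have e5 : (-1 : ℂ) ^ (m * (m - 1) / 2) = (-1) ^ (k + 1) := by
    have : m * (m - 1) / 2 = (k + 1) + 2 * (k * k + k) := by
      rw [hmk, show 2 * k + 2 - 1 = 2 * k + 1 by omega,
        show (2 * k + 2) * (2 * k + 1) = ((k + 1) + 2 * (k * k + k)) * 2 by ring,
        Nat.mul_div_cancel _ (by norm_num)]
    rw [this, pow_add, pow_mul]
    simp
  have e6 : chi p ℂ 2 = (-1) ^ (k + 1) := by
    rw [chi_apply, quadraticChar_two (by rw [ZMod.ringChar_zmod_n]; omega), ZMod.card,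
      ZMod.χ₈_nat_eq_if_mod_eight, if_neg (by omega)]
    rcases Nat.even_or_odd (k + 1) with h | h
    · rw [if_pos (by left; rw [Nat.even_iff] at h; omega), h.neg_one_pow]; simp
    · rw [if_neg (by rw [Nat.odd_iff] at h; omega), h.neg_one_pow]; simp
  rw [e5, e6, show m - 1 = 2 * k + 1 by omega, hmk, div_pow]
  have hgk : gg p ^ (2 * k + 2) = (gg p ^ 2) ^ k * gg p ^ 2 := by rw [pow_add, pow_mul]
  rw [hgk]
  have hne : (gg p ^ 2) ^ k ≠ 0 := pow_ne_zero _ (pow_ne_zero _ hg)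
  rw [pow_succ (2 : ℂ) (2 * k + 1)]
  field_simp

end

/-- the power `ε^h` has norm `-1` -/
theorem norm_H (h1 : p % 4 = 1) (m : ℕ) (hm : p = 2 * m + 1) (K : Type) [Field K] [NumberField K]
    (h2 : finrank ℚ K = 2) (β : K) (hβ : β ^ 2 = (p : K)) (φ : K →+* ℝ) (ε : ℝ)
    (hε : Pool.Agent.R945.RQ.IsFund K φ ε)
    (a b : ℚ) (hab : ε ^ (classNumber K) = a + b * Real.sqrt p) : a ^ 2 - p * b ^ 2 = -1 := by
  have hp : p.Prime := Fact.out
  have hp0 : (0 : ℝ) < p := by exact_mod_cast hp.pos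
  have hss : Real.sqrt p * Real.sqrt p = p := Real.mul_self_sqrt hp0.le
  have hls : legendreSym p 2 = quadraticChar (ZMod p) 2 := by simp [legendreSym]
  have h2' : quadraticChar (ZMod p) 2 = 1 ∨ quadraticChar (ZMod p) 2 = -1 :=
    quadraticChar_dichotomy (two_ne' (by omega))
  rcases h2' with h | h
  · obtain ⟨D, -, -⟩ := dat_of h1 m hm K h2 β hβ φ ε hε a b (by
      rw [hls, h, ← hab, ← zpow_natCast]
      congr 1
      ring)
    have := D.hab
    have h5 : (a : ℚ) ^ 2 + 1 = p * b ^ 2 := by exact_mod_cast this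
    linarith
  · obtain ⟨D, -, -⟩ := dat_of h1 m hm K h2 β hβ φ ε hε (a ^ 3 + 3 * a * b ^ 2 * p) (3 * a ^ 2 * b + b ^ 3 * p) (by
      rw [hls, h]
      have : ε ^ ((2 - (-1 : ℤ)) * (classNumber K : ℤ)) = (ε ^ (classNumber K)) ^ 3 := by
        rw [← pow_mul, ← zpow_natCast]
        congr 1
        push_cast
        ring
      rw [this, hab]
      push_cast
      linear_combination (3 * (a : ℝ) * b ^ 2 + b ^ 3 * Real.sqrt p) * hss)
    have := D.hab
    have h5 : ((a ^ 3 + 3 * a * b ^ 2 * p : ℚ)) ^ 2 + 1 = p * (3 * a ^ 2 * b + b ^ 3 * p) ^ 2 := by exact_mod_cast this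
    have h6 : (a ^ 2 - p * b ^ 2) ^ 3 = (-1) ^ 3 := by linear_combination h5
    have h7 : Function.Injective (fun x : ℚ => x ^ 3) := (Odd.strictMono_pow (by decide : Odd 3)).injective
    exact h7 h6

theorem main_one (h1 : p % 4 = 1) (m : ℕ) (hm : p = 2 * m + 1) (K : Type) [Field K] [NumberField K]
    (h2 : finrank ℚ K = 2) (β : K) (hβ : β ^ 2 = (p : K)) (φ : K →+* ℝ) (ε : ℝ)
    (hε : Pool.Agent.R945.RQ.IsFund K φ ε)
    (a b : ℚ) (hab : ε ^ (classNumber K) = a + b * Real.sqrt p) (x y z w : ℂ) :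
    (MM p m x y z w).det = chi p ℂ 2 * 2 ^ (m - 1) *
      ((p * b - 2 * a) * x + (a - 2 * b) * (w * x - (y + 1) * (z + 1))) := by
  have hp : p.Prime := Fact.out
  have h3 : 3 < p := by
    have := hp.two_le
    omega
  have hp0 : (0 : ℝ) < p := by exact_mod_cast hp.pos
  have hss : Real.sqrt p * Real.sqrt p = p := Real.mul_self_sqrt hp0.le
  have hε0 : 0 < ε := by linarith [hε.1]
  obtain ⟨hR, -⟩ := Pool.Agent.R945.RQ.prod_res h1 K h2 β hβ φ ε hε
  have hN := norm_H h1 m hm K h2 β hβ φ ε hε a b hab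
  set H := ε ^ (classNumber K) with hH
  have hH0 : 0 < H := by positivity
  have hPR := PR_one m hm h1 H hR
  have hg : gg p = ((Real.sqrt p : ℝ) : ℂ) := g_eq h1
  have hinv : H⁻¹ = b * Real.sqrt p - a := by
    rw [inv_eq_iff_eq_inv, eq_comm, inv_eq_iff_eq_inv, eq_comm]
    rw [← one_div, div_eq_iff hH0.ne', hab]
    have hN' : (a : ℝ) ^ 2 - p * b ^ 2 = -1 := by exact_mod_cast hN
    linear_combination hN' - (b : ℝ) ^ 2 * hss
  apply one m hm h3 h1 (H : ℂ) (by exact_mod_cast hH0.ne') a b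
  · rw [hPR, hg]; push_cast; rfl
  · rw [hg, hab]; push_cast; ring
  · rw [hg, ← Complex.ofReal_inv, hinv]; push_cast; ring

end Pool.Agent.L0h76.HK
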